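import Mathlib

namespace Pool.Agent.Results.MP_74cbe5_co.Disproof

open Finset

/-- path-pairable: for every pairing of the vertices (a fixed-point-free involution `σ`) there are
paths joining each vertex to its partner, edge-disjoint for different pairs -/
def PathPairable {V : Type} (G : SimpleGraph V) : Prop :=
  ∀ σ : V → V, (∀ v, σ (σ v) = v) → (∀ v, σ v ≠ v) →
    ∃ p : ∀ v, G.Walk v (σ v), (∀ v, (p v).IsPath) ∧
      ∀ v w, w ≠ v → w ≠ σ v → ∀ e ∈ (p v).edges, e ∉ (p w).edges

abbrev W (q m H : ℕ) := Fin 3 ⊕ Fin q ⊕ (Fin 2 × Fin m) ⊕ Fin (2 * H)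
abbrev I (q m H : ℕ) := Unit ⊕ (Fin 3 × Fin q) ⊕ (Fin 2 × Fin m) ⊕ Fin (2 * H) ⊕ (Fin 2 × Fin H)

variable {q m H : ℕ}

abbrev hub (i : Fin 3) : W q m H := .inl i
abbrev rt (a : Fin q) : W q m H := .inr (.inl a)
abbrev lf (c : Fin 2) (a : Fin m) : W q m H := .inr (.inr (.inl (c, a)))
abbrev nd (j : Fin (2 * H)) : W q m H := .inr (.inr (.inr j))

def ed : I q m H → Sym2 (W q m H)
  | .inl _ => s(hub 0, hub 1)
  | .inr (.inl (k, a)) => s(rt a, hub k)
  | .inr (.inr (.inl (c, a))) => s(lf c a, hub c.succ)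
  | .inr (.inr (.inr (.inl j))) => s(nd ⟨j / 2, by omega⟩, nd j)
  | .inr (.inr (.inr (.inr (c, a)))) => s(nd ⟨H + a, by omega⟩, hub c.succ)

lemma ed_inj : Function.Injective (ed : I q m H → _) := by
  rintro (_ | ⟨k, a⟩ | ⟨c, a⟩ | j | ⟨c, a⟩) (_ | ⟨k', a'⟩ | ⟨c', a'⟩ | j' | ⟨c', a'⟩) h <;>
    simp only [ed, Sym2.eq_iff, Sum.inl.injEq, Sum.inr.injEq, Prod.mk.injEq, reduceCtorEq, Fin.ext_iff,
      Fin.val_succ, false_and, and_false, or_false, false_or, or_self] at h ⊢ <;> omega

def G (q m H : ℕ) : SimpleGraph (W q m H) := SimpleGraph.fromEdgeSet (Set.range ed)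

def K : W q m H → Fin 3
  | .inl i => if i = 2 then 2 else 1
  | .inr (.inl _) => 0
  | .inr (.inr (.inl (c, _))) => c.succ
  | .inr (.inr (.inr j)) => if j < H then 2 else 1

def tw (j : ℕ) : ℕ := if j % 2 = 0 then j / 2 else tw (j / 2)
decreasing_by omega

lemma tw_le (j : ℕ) : tw j ≤ j := by
  induction j using Nat.strong_induction_on with
  | _ j ih =>
    rw [tw]
    split_ifs with h
    · omega
    · have := ih (j / 2) (by omega); omega

def ow (σ dem : W q m H → W q m H) : I q m H → W q m H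
  | .inl _ => hub 0
  | .inr (.inl (k, a)) => if k = K (σ (rt a)) then rt a else dem (rt a)
  | .inr (.inr (.inl (c, a))) => lf c a
  | .inr (.inr (.inr (.inl j))) => nd ⟨tw j, by have := tw_le j; omega⟩
  | .inr (.inr (.inr (.inr (c, a)))) =>
      if c = 0 then nd ⟨H + a, by omega⟩ else nd ⟨tw (H + a), by have := tw_le (H + a); omega⟩

lemma surj {V : Type} [DecidableEq V] (S R : Finset V) (h : S.card ≤ R.card) :
    ∃ f : V → V, ∀ u ∈ S, ∃ y ∈ R, f y = u := by
  classical
  obtain ⟨g, hg⟩ := Function.Embedding.exists_of_card_le_finset (α := S) (s := R) (by simpa using h)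
  refine ⟨fun y => if k : ∃ u, g u = y then k.choose else y, fun u hu => ⟨g ⟨u, hu⟩, hg ⟨_, rfl⟩, ?_⟩⟩
  have k : ∃ u', g u' = g ⟨u, hu⟩ := ⟨_, rfl⟩
  simp only [dif_pos k]
  rw [g.injective k.choose_spec]

lemma assign {V : Type} [DecidableEq V] (c : V → Fin 3) (D R : Finset V)
    (h1 : D.card + (R.filter (fun y => c y = 1)).card ≤ R.card)
    (h2 : D.card + (R.filter (fun y => c y = 2)).card ≤ R.card) :
    ∃ dem : V → V, ∀ u ∈ D, (∃ y ∈ R, c y = 0 ∧ dem y = u) ∨
      ∃ y ∈ R, ∃ y' ∈ R, c y = 1 ∧ c y' = 2 ∧ dem y = u ∧ dem y' = u := by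
  have e : R.card = (R.filter (fun y => c y = 0)).card + (R.filter (fun y => c y = 1)).card +
      (R.filter (fun y => c y = 2)).card := by
    rw [card_eq_sum_card_fiberwise (f := c) (t := univ) (fun _ _ => mem_coe.2 (mem_univ _)),
      Fin.sum_univ_three]
  obtain ⟨D0, s0, c0⟩ := exists_subset_card_eq (s := D)
    (min_le_left D.card (R.filter (fun y => c y = 0)).card)
  have cs := card_sdiff_of_subset s0
  obtain ⟨f0, g0⟩ := surj D0 (R.filter (fun y => c y = 0)) (by omega)
  obtain ⟨f1, g1⟩ := surj (D \ D0) (R.filter (fun y => c y = 1)) (by omega)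
  obtain ⟨f2, g2⟩ := surj (D \ D0) (R.filter (fun y => c y = 2)) (by omega)
  refine ⟨fun y => if c y = 0 then f0 y else if c y = 1 then f1 y else f2 y, fun u hu => ?_⟩
  by_cases k : u ∈ D0
  · obtain ⟨y, hy, e⟩ := g0 u k
    obtain ⟨a, b⟩ := mem_filter.1 hy
    exact Or.inl ⟨y, a, b, by simp [b, e]⟩
  · obtain ⟨y, hy, e⟩ := g1 u (mem_sdiff.2 ⟨hu, k⟩)
    obtain ⟨y', hy', e'⟩ := g2 u (mem_sdiff.2 ⟨hu, k⟩)
    obtain ⟨a, b⟩ := mem_filter.1 hy
    obtain ⟨a', b'⟩ := mem_filter.1 hy'
    exact Or.inr ⟨y, a, y', a', b, b', by simp [b, e], by simp [b', e']⟩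

lemma K0 {u : W q m H} (h : K u = 0) : ∃ a, u = rt a := by
  rcases u with i | a | ⟨c, a⟩ | j
  · simp only [K] at h; split_ifs at h <;> simp at h
  · exact ⟨a, rfl⟩
  · simp [K] at h
  · simp only [K] at h; split_ifs at h <;> simp at h

lemma Kcard (c : Fin 2) : (univ.filter (fun u : W q m H => K u = c.succ)).card ≤ m + 2 * H + 3 := by
  have : univ.filter (fun u : W q m H => K u = c.succ) ⊆
      (univ.image (lf c) ∪ univ.image nd) ∪ univ.image hub := by
    rintro (i | a | ⟨c', a⟩ | j) h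
    · simp
    · simp [K, (Fin.succ_ne_zero c).symm] at h
    · have : c' = c := by simpa [K] using h
      simp [this]
    · simp
  refine (card_le_card this).trans ((card_union_le _ _).trans (Nat.add_le_add
    ((card_union_le _ _).trans (Nat.add_le_add ?_ ?_)) ?_)) <;> exact card_image_le.trans (by simp)

lemma pairable (hq : m + 2 * H + 3 ≤ q) : PathPairable (G q m H) := by
  classical
  intro σ h1 h2
  have inj : Function.Injective σ := Function.LeftInverse.injective h1
  let R : Finset (W q m H) := univ.image rt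
  have Rc : R.card = q := by
    rw [card_image_of_injective _ (fun a b h => by simpa using h)]; simp
  have RK : ∀ y ∈ R, K y = 0 := fun y hy => by
    obtain ⟨a, -, rfl⟩ := mem_image.1 hy; rfl
  let D := univ.filter (fun u => K u = 1 ∧ K (σ u) = 2)
  obtain ⟨dem, hdem⟩ := assign (fun y => K (σ y)) D R (by
    rw [← card_image_of_injective (R.filter _) inj, ← card_union_of_disjoint, Rc]
    · refine (card_le_card fun u hu => ?_).trans ((Kcard 0).trans hq)
      rcases mem_union.1 hu with k | k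
      · simpa using (mem_filter.1 k).2.1
      · obtain ⟨y, hy, rfl⟩ := mem_image.1 k
        simpa using (mem_filter.1 hy).2
    · rw [disjoint_left]
      intro u a b
      obtain ⟨y, hy, rfl⟩ := mem_image.1 b
      have := (mem_filter.1 a).2.2
      rw [h1, RK y (mem_filter.1 hy).1] at this
      simp at this) (by
    rw [← card_image_of_injective (R.filter _) inj, ← card_image_of_injective D inj,
      ← card_union_of_disjoint, Rc]
    · refine (card_le_card fun u hu => ?_).trans ((Kcard 1).trans hq)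
      rcases mem_union.1 hu with k | k
      · obtain ⟨y, hy, rfl⟩ := mem_image.1 k
        simpa using (mem_filter.1 hy).2.2
      · obtain ⟨y, hy, rfl⟩ := mem_image.1 k
        simpa using (mem_filter.1 hy).2
    · rw [disjoint_left]
      intro u a b
      obtain ⟨y, hy, rfl⟩ := mem_image.1 b
      obtain ⟨x, hx, e⟩ := mem_image.1 a
      have := (mem_filter.1 hx).2.1
      rw [inj e, RK y (mem_filter.1 hy).1] at this
      simp at this)
  let Gv : W q m H → SimpleGraph (W q m H) := fun v =>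
    SimpleGraph.fromEdgeSet (ed '' {i | ow σ dem i = v ∨ ow σ dem i = σ v})
  have le : ∀ v, Gv v ≤ G q m H := fun v =>
    SimpleGraph.fromEdgeSet_mono (Set.image_subset_range _ _)
  have reach : ∀ v, (Gv v).Reachable v (σ v) := by
    intro v
    have step : ∀ i a b, (ow σ dem i = v ∨ ow σ dem i = σ v) → ed i = s(a, b) → (Gv v).Reachable a b := by
      intro i a b o e
      by_cases k : a = b
      · rw [k]
      · exact SimpleGraph.Adj.reachable ((SimpleGraph.fromEdgeSet_adj _).2 ⟨⟨i, o, e⟩, k⟩)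
    have down : ∀ (u : W q m H), (u = v ∨ u = σ v) → ∀ k (j : Fin (2 * H)), 2 * H - j = k →
        (nd ⟨tw j, by have := tw_le j; omega⟩ : W q m H) = u → (Gv v).Reachable (nd j) (hub 2) := by
      intro u hu k
      induction k using Nat.strong_induction_on with
      | _ k ih =>
        intro j hk e
        rcases Nat.lt_or_ge j H with c | c
        · have t : tw (2 * j + 1) = tw j := by
            rw [tw, if_neg (by omega), show (2 * j.1 + 1) / 2 = j by omega]
          refine (step (.inr (.inr (.inr (.inl ⟨2 * j + 1, by omega⟩)))) _ (nd ⟨2 * j + 1, by omega⟩)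
            (by simp only [ow, t, e]; exact hu) ?_).trans
            (ih _ (by simp only []; omega) ⟨2 * j + 1, by omega⟩ rfl (by simp only [t]; exact e))
          simp only [ed, show (2 * j.1 + 1) / 2 = j by omega]
        · refine step (.inr (.inr (.inr (.inr (1, ⟨j - H, by omega⟩))))) _ _ ?_ ?_
          · simp only [ow, show H + (j.1 - H) = j by omega, e]; simpa using hu
          · simp only [ed, show H + (j.1 - H) = j by omega]; rfl
    have home : ∀ u : W q m H, (u = v ∨ u = σ v) →
        (Gv v).Reachable u (hub (if K u = 0 then K (σ u) else K u)) := by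
      rintro (i | a | ⟨c, a⟩ | j) hu
      · fin_cases i
        · exact step (.inl ()) _ _ hu rfl
        · exact .refl _
        · exact .refl _
      · exact step (.inr (.inl (K (σ (rt a)), a))) _ _ (by simpa [ow] using hu) rfl
      · rw [if_neg (show ¬ K (lf c a : W q m H) = 0 from Fin.succ_ne_zero c)]
        exact step (.inr (.inr (.inl (c, a)))) _ _ hu rfl
      · rcases Nat.lt_or_ge j H with c | c
        · have t : tw (2 * j) = j := by rw [tw, if_pos (by omega)]; omega
          have : K (nd j : W q m H) = 2 := by simp [K, c]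
          rw [this, if_neg (by decide)]
          refine (step (.inr (.inr (.inr (.inl ⟨2 * j, by omega⟩)))) _ (nd ⟨2 * j, by omega⟩)
            (by simp only [ow, t]; exact hu) ?_).trans
            (down _ hu _ ⟨2 * j, by omega⟩ rfl (by simp only [t]))
          simp only [ed, show (2 * j.1) / 2 = j by omega]
        · have : K (nd j : W q m H) = 1 := by simp [K, not_lt.2 c]
          rw [this, if_neg (by decide)]
          refine step (.inr (.inr (.inr (.inr (0, ⟨j - H, by omega⟩))))) _ _ ?_ ?_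
          · simp only [ow, show H + (j.1 - H) = j by omega]; simpa using hu
          · simp only [ed, show H + (j.1 - H) = j by omega]; rfl
    have chan : ∀ u : W q m H, (u = v ∨ u = σ v) → K u = 1 → K (σ u) = 2 →
        (Gv v).Reachable (hub 1) (hub 2) := by
      intro u hu k1 k2
      have go : ∀ y ∈ R, dem y = u → ∀ k, k ≠ K (σ y) → (Gv v).Reachable y (hub k) := by
        intro y hy e k n
        obtain ⟨a, -, rfl⟩ := mem_image.1 hy
        exact step (.inr (.inl (k, a))) _ _ (by simp only [ow, if_neg n, e]; exact hu) rfl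
      rcases hdem u (mem_filter.2 ⟨mem_univ _, k1, k2⟩) with ⟨y, hy, c, e⟩ | ⟨y, hy, y', hy', c, c', e, e'⟩
      · exact (go y hy e 1 (by rw [c]; decide)).symm.trans (go y hy e 2 (by rw [c]; decide))
      · exact (go y' hy' e' 1 (by rw [c']; decide)).symm.trans ((go y' hy' e' 0 (by rw [c']; decide)).trans
          ((go y hy e 0 (by rw [c]; decide)).symm.trans (go y hy e 2 (by rw [c]; decide))))
    have a1 := home v (Or.inl rfl)
    have a2 := home (σ v) (Or.inr rfl)
    have c1 := chan v (Or.inl rfl)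
    have c2 := chan (σ v) (Or.inr rfl)
    rw [h1] at a2 c2
    refine a1.trans (SimpleGraph.Reachable.trans ?_ a2.symm)
    generalize K v = x at *
    generalize K (σ v) = y at *
    fin_cases x <;> fin_cases y <;> first | exact .refl _ | exact c1 rfl rfl | exact (c2 rfl rfl).symm
  choose p hp using fun v => (reach v).exists_isPath
  refine ⟨fun v => (p v).mapLe (le v), fun v => (hp v).mapLe _, fun v w n1 n2 e e1 e2 => ?_⟩
  rw [SimpleGraph.Walk.edges_mapLe_eq_edges] at e1 e2
  have f1 := (p v).edges_subset_edgeSet e1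
  have f2 := (p w).edges_subset_edgeSet e2
  simp only [Gv, SimpleGraph.edgeSet_fromEdgeSet] at f1 f2
  obtain ⟨⟨i, o, rfl⟩, -⟩ := f1
  obtain ⟨⟨i', o', e'⟩, -⟩ := f2
  rw [ed_inj e'] at o'
  rcases o with o | o <;> rcases o' with o' | o'
  · exact n1 (o'.symm.trans o)
  · exact n2 (by rw [← o, o', h1])
  · exact n2 (o'.symm.trans o)
  · exact n1 (inj (o'.symm.trans o))

def lev (D : ℕ) : W q m (2 ^ D) → ℕ
  | .inr (.inr (.inr j)) => Nat.log 2 j
  | _ => D + 1

lemma lev_adj (D : ℕ) (a b : W q m (2 ^ D)) (h : (G q m (2 ^ D)).Adj a b) : lev D b ≤ lev D a + 1 := by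
  obtain ⟨⟨i, e⟩, -⟩ := (SimpleGraph.fromEdgeSet_adj _).1 h
  rcases i with _ | ⟨k, x⟩ | ⟨c, x⟩ | j | ⟨c, x⟩ <;> simp only [ed, Sym2.eq_iff] at e <;>
    rcases e with ⟨rfl, rfl⟩ | ⟨rfl, rfl⟩ <;> simp only [lev, Nat.log_div_base] <;> try omega
  all_goals
    have : Nat.log 2 (2 ^ D + x) = D := Nat.log_eq_of_pow_le_of_lt_pow (by omega) (by
      have := x.2; rw [pow_succ]; omega)
    omega

lemma lev_walk (D : ℕ) {a b : W q m (2 ^ D)} (p : (G q m (2 ^ D)).Walk a b) :
    lev D b ≤ lev D a + p.length := by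
  induction p with
  | nil => simp
  | cons h p ih => have := lev_adj D _ _ h; simp only [SimpleGraph.Walk.length_cons]; omega

theorem result : ∀ D : ℕ, ∃ (V : Type) (_ : Fintype V) (Γ : SimpleGraph V),
    Even (Fintype.card V) ∧ PathPairable Γ ∧ Γ.Connected ∧
    (Γ.edgeSet.ncard : ℝ) ≤ (2 - 1 / 4) * Fintype.card V ∧ D ≤ Γ.diam := by
  classical
  intro D
  have hp := pairable (q := 22 * 2 ^ D + 3) (m := 20 * 2 ^ D) (H := 2 ^ D) (by omega)
  have hc : Fintype.card (W (22 * 2 ^ D + 3) (20 * 2 ^ D) (2 ^ D)) = 64 * 2 ^ D + 6 := by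
    simp; ring
  have con : (G (22 * 2 ^ D + 3) (20 * 2 ^ D) (2 ^ D)).Connected := by
    refine ⟨fun u v => ?_⟩
    by_cases k : u = v
    · rw [k]
    obtain ⟨σ, s1, s2, s3⟩ : ∃ σ : W (22 * 2 ^ D + 3) (20 * 2 ^ D) (2 ^ D) → _,
        (∀ x, σ (σ x) = x) ∧ (∀ x, σ x ≠ x) ∧ σ u = v := by
      let e := (Fintype.equivFinOfCardEq (show Fintype.card (W (22 * 2 ^ D + 3) (20 * 2 ^ D) (2 ^ D)) =
        (32 * 2 ^ D + 3) * 2 by rw [hc]; ring)).trans finProdFinEquiv.symm
      let τ := fun x => e.symm ((e x).1, (e x).2.rev)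
      have t1 : ∀ x, τ (τ x) = x := fun x => by simp [τ]
      have t2 : ∀ x, τ x ≠ x := fun x h => by
        have := congrArg (fun y => (e y).2) h
        simp only [τ, Equiv.apply_symm_apply] at this
        revert this; generalize (e x).2 = z; revert z; decide
      let s := Equiv.swap v (τ u)
      refine ⟨fun x => s (τ (s x)), fun x => by simp [s, t1], fun x h => t2 (s x) ?_, ?_⟩
      · have := congrArg s h
        simpa [s] using this
      · simp only [s]
        rw [Equiv.swap_apply_of_ne_of_ne k (t2 u).symm, Equiv.swap_apply_right]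
    obtain ⟨p, -⟩ := hp σ s1 s2
    exact s3 ▸ ⟨p u⟩
  refine ⟨W (22 * 2 ^ D + 3) (20 * 2 ^ D) (2 ^ D), inferInstance, G _ _ _, ?_, hp, con, ?_, ?_⟩
  · rw [hc]; exact ⟨32 * 2 ^ D + 3, by ring⟩
  · have : (G (22 * 2 ^ D + 3) (20 * 2 ^ D) (2 ^ D)).edgeSet.ncard ≤ 110 * 2 ^ D + 10 := by
      rw [G, SimpleGraph.edgeSet_fromEdgeSet]
      refine (Set.ncard_le_ncard Set.sdiff_subset).trans ?_
      rw [← Set.image_univ]
      refine (Set.ncard_image_le).trans ?_
      rw [Set.ncard_univ, Nat.card_eq_fintype_card]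
      simp; omega
    rw [hc]
    have h2 : ((G (22 * 2 ^ D + 3) (20 * 2 ^ D) (2 ^ D)).edgeSet.ncard : ℝ) ≤ 110 * 2 ^ D + 10 := by
      exact_mod_cast this
    push_cast
    have : (0 : ℝ) ≤ 2 ^ D := by positivity
    linarith
  · have pos : 0 < 2 ^ D := by positivity
    refine le_trans ?_ (SimpleGraph.dist_le_diam (SimpleGraph.connected_iff_ediam_ne_top.1 con)
      (u := nd ⟨0, by omega⟩) (v := hub 0))
    obtain ⟨p, hp⟩ := con.exists_walk_length_eq_dist (nd ⟨0, by omega⟩) (hub 0)
    have := lev_walk D p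
    simp only [lev, Nat.log_zero_right] at this
    omega

end Pool.Agent.Results.MP_74cbe5_co.Disproof
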